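import Mathlib
import Pool.Agent.Q316.IntroTuring

/-!
# An introreducible set that is not a finite union of uniformly introreducible sets
-/

set_option autoImplicit false

namespace Pool.Agent.Results.MP_4a6649_lc.NotUnionOfUniform

/-! ### Definitions used in the statement -/

/-- The characteristic function of a set, as an oracle. -/
noncomputable def chi (A : Set ℕ) : ℕ →. ℕ :=
  open Classical in fun n => Part.some (if n ∈ A then 1 else 0)

/-- The first `n` bits of the characteristic function of `C`. -/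
noncomputable def pre (C : Set ℕ) (n : ℕ) : List Bool :=
  open Classical in (List.range n).map fun i => decide (i ∈ C)

/-- `Φ^C(x) = b`.  A Turing operator is given by a computable `Φ`: on oracle `C` and input `x` it
evaluates `Φ` on longer and longer initial segments of `C`, until a first value is found. -/
def Ev (Φ : List Bool → ℕ → Option Bool) (C : Set ℕ) (x : ℕ) (b : Bool) : Prop :=
  ∃ n, Φ (pre C n) x = some b ∧ ∀ m < n, Φ (pre C m) x = none

/-- `Φ^C = B`. -/
def Computes (Φ : List Bool → ℕ → Option Bool) (C B : Set ℕ) : Prop :=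
  ∀ x, (x ∈ B → Ev Φ C x true) ∧ (x ∉ B → Ev Φ C x false)

/-- `A` is introreducible. -/
def Introreducible (A : Set ℕ) : Prop :=
  A.Infinite ∧ ∀ C ⊆ A, C.Infinite → TuringReducible (chi A) (chi C)

/-- `B` is uniformly introreducible. -/
def UniformlyIntroreducible (B : Set ℕ) : Prop :=
  B.Infinite ∧ ∃ Φ : List Bool → ℕ → Option Bool, Computable₂ Φ ∧
    ∀ C ⊆ B, C.Infinite → Computes Φ C B

/-- Sanity check: a set is Turing reducible to `C` iff some operator computes it from `C`. -/
theorem turing_iff (B C : Set ℕ) : TuringReducible (chi B) (chi C) ↔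
    ∃ Φ : List Bool → ℕ → Option Bool, Computable₂ Φ ∧ Computes Φ C B :=
  Pool.Agent.Q316.Intro.turing_iff

/-- **There is an introreducible set which is not a union of finitely many uniformly
introreducible sets.** -/
theorem result : ∃ A : Set ℕ, Introreducible A ∧
    ¬ ∃ (n : ℕ) (B : Fin n → Set ℕ), A = ⋃ i, B i ∧ ∀ i, UniformlyIntroreducible (B i) := by
  classical
  obtain ⟨κ, hκ⟩ := Pool.Agent.Q316.Intro.exists_kappa
  refine ⟨Pool.Agent.Q316.Intro.A κ, ⟨Pool.Agent.Q316.Intro.el_infinite κ, fun C hC hi =>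
    Pool.Agent.Q316.Intro.introreducible_A hC hi⟩, ?_⟩
  rintro ⟨n, B, hA, hB⟩
  have hBi := fun i => (hB i).1
  choose Φ hΦ h using fun i => (hB i).2
  -- a good column `e` has an infinite part in some `B i`, and then `B i` shows no key `κ e`
  have key : ∀ e, Pool.Agent.Q316.Intro.Good Φ κ e → ∃ i,
      {m | e < m ∧ Pool.Agent.Q316.Intro.el κ e m ∈ B i}.Infinite ∧
      ∀ x ∈ B i, Pool.Agent.Q316.Intro.rev e x = none := by
    rintro e ⟨M, hM, hgood⟩
    have h1 : ∃ i, {m | m ∈ M ∧ e < m ∧ Pool.Agent.Q316.Intro.el κ e m ∈ B i}.Infinite := by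
      by_contra hcon
      push Not at hcon
      have h2 : (⋃ i, {m | m ∈ M ∧ e < m ∧ Pool.Agent.Q316.Intro.el κ e m ∈ B i}).Finite :=
        Set.finite_iUnion fun i => hcon i
      refine hM ((h2.union (Set.finite_Iic e)).subset fun m hm => ?_)
      by_cases hme : e < m
      · left
        have : Pool.Agent.Q316.Intro.el κ e m ∈ Pool.Agent.Q316.Intro.A κ := ⟨e, m, hme, rfl⟩
        rw [hA] at this
        obtain ⟨i, hi⟩ := Set.mem_iUnion.1 this
        exact Set.mem_iUnion.2 ⟨i, hm, hme, hi⟩
      · right; exact not_lt.1 hme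
    obtain ⟨i, hi⟩ := h1
    refine ⟨i, hi.mono fun m hm => ⟨hm.2.1, hm.2.2⟩, ?_⟩
    by_contra hcon
    push Not at hcon
    set D := {m | m ∈ M ∧ e < m ∧ Pool.Agent.Q316.Intro.el κ e m ∈ B i} with hD
    have h2 : Pool.Agent.Q316.Intro.col κ e D ⊆ B i := by
      rintro x ⟨m, hm, -, rfl⟩
      exact hm.2.2
    refine hgood D (fun m hm => hm.1) hi i ?_
    refine Pool.Agent.Q316.Intro.ans_of_computes
      (h i _ h2 (Pool.Agent.Q316.Intro.col_infinite hi)) ?_ hcon
    rw [hA]
    exact Set.subset_iUnion B i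
  have hinf : {e | Pool.Agent.Q316.Intro.Good Φ κ e}.Infinite := by
    rw [Set.infinite_iff_exists_gt]
    intro a
    obtain ⟨e, he, h⟩ := hκ n Φ hΦ (a + 1)
    exact ⟨e, h, by omega⟩
  obtain ⟨e0, he0⟩ := hinf.nonempty
  have : Nonempty (Fin n) := ⟨(key e0 he0).choose⟩
  choose! g hg using key
  obtain ⟨e, he, e', he', hne, heq⟩ := hinf.exists_ne_map_eq_of_mapsTo
    (f := g) (t := Set.univ) (fun _ _ => Set.mem_univ _) Set.finite_univ
  obtain ⟨m, hm, hmlt⟩ := (Set.infinite_iff_exists_gt.1 (hg e' he').1) e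
  have h1 := (hg e he).2 _ (by rw [heq]; exact hm.2)
  rw [Pool.Agent.Q316.Intro.rev_el, if_neg hne.symm, if_pos hmlt] at h1
  simp at h1

end Pool.Agent.Results.MP_4a6649_lc.NotUnionOfUniform
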